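import Mathlib
import Pool.Agent.K1H86.TZ.Cor

/-!
# Infinite sets of shifts all of whose subsets are exact prime constellations

Every infinite set `A` of integers contains an infinite set `T` such that, for every subset `S` of `T`, finite
or infinite, every `s` in `S` and every finite set `H` of integers, at least `x / (log x) ^ C` primes `p ≤ x`
have the property that, for all `h` in `H`, the number `p + h` is prime if and only if `s + h` belongs to `S`,
for arbitrarily large `x`. The primes `p` can be taken in any reduced residue class modulo `q`, if the members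
of `S` are at least `N q` in absolute value; `N 1 = 0`. So all subsets of `T` are limits of translates of the
set of the primes: `T` is an infinite independence set of the orbit closure of the primes under the shift.

So the constellations of the tuples `P = (t 1 - t 0, ..., t k - t 0)` with `t 0 < ... < t k` in `T`, `k`
arbitrary, satisfy `π_P x ≥ x / (log x) ^ C` for arbitrarily large `x`, even if only the constellations of
consecutive primes are counted.

The multidimensional sieve of Maynard and Tao in the form of the starting files is used for products of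
weights over infinitely many blocks, together with the argument of Bergelson for finitely additive limits
and the theorem of Galvin.
-/

set_option autoImplicit false

namespace Pool.Agent.Results.MP_68a45e_nt.InfiniteConstellations

open Filter
open Pool.Agent.K1H86.PP (Seq Often Often.shift Often.mono)
open Pool.Agent.K1H86.TZ (full_one Full Full.mono Full.chain shifts)

/-- the integer `m` is a prime number -/
def IsP (m : ℤ) : Prop := ∃ p : ℕ, p.Prime ∧ m = p

/-- a sequence of shifts with all finite subsets of `T` exact -/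
theorem one {a : ℕ → ℤ} (ha : Function.Injective a) {T : Set ℕ} (hF : Full (fun t => ((1 : ℤ), a t)) T)
    (J : Finset ℕ) (hJ : (J : Set ℕ) ⊆ T) (s : ℕ) (hs : s ∈ J) (H : Finset ℤ) : ∃ C, Often C (fun p =>
      p.Prime ∧ ∀ h ∈ H, (IsP (p + h) ↔ ∃ t ∈ J, a s + h = a t)) := by
  classical
  have hf : Seq (fun t => ((1 : ℤ), a t)) :=
    { pos := fun t => one_pos
      prim := fun t => isCoprime_one_left
      inj := fun s t hst => ha (Prod.mk.inj hst).2 }
  set K : Finset ℕ := (H.image (fun h => a s + h)).preimage a ha.injOn with hK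
  set R : Finset (ℤ × ℤ) := (H.filter (fun h => ∀ t, a s + h ≠ a t)).image (fun h => (1, h)) with hR
  obtain ⟨C, hC⟩ := Full.chain hf hF J hJ hs K (fun t _ => by
      show (1 : ℤ) ∣ _
      exact one_dvd _) R (by
    intro r hr
    rw [hR, Finset.mem_image] at hr
    obtain ⟨h, hh, rfl⟩ := hr
    refine ⟨le_rfl, fun t he => ?_⟩
    have h1 := (Prod.mk.inj he).2
    simp only [one_mul] at h1
    exact (Finset.mem_filter.1 hh).2 t h1)
  refine ⟨C, hC.mono fun p hp => ⟨hp.1, fun h hh => ?_⟩⟩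
  by_cases hex : ∃ t, a s + h = a t
  · obtain ⟨t, ht⟩ := hex
    have htK : t ∈ K := by
      rw [hK, Finset.mem_preimage]
      exact Finset.mem_image.2 ⟨h, hh, ht⟩
    have h1 := hp.2.2.1 t (Finset.mem_union_right _ htK)
    simp only [Int.ediv_self one_ne_zero] at h1
    have h2 : (a t - 1 * a s) + (p : ℤ) * 1 = p + h := by
      rw [← ht]
      ring
    rw [h2] at h1
    have h3 : IsP (p + h) ↔ t ∈ J := h1
    rw [h3]
    constructor
    · exact fun h4 => ⟨t, h4, ht⟩
    · rintro ⟨t', ht', he⟩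
      rwa [ha (ht.symm.trans he)]
  · have h1 := hp.2.2.2 (1, h) (by
      rw [hR, Finset.mem_image]
      exact ⟨h, Finset.mem_filter.2 ⟨hh, fun t ht => hex ⟨t, ht⟩⟩, rfl⟩)
    constructor
    · rintro ⟨p', hp', he⟩
      exfalso
      apply h1
      rw [mul_one, add_comm, he]
      simpa using hp'
    · rintro ⟨t, _, ht⟩
      exact absurd ⟨t, ht⟩ hex

/-- the theorem for finite subsets of `T` -/
theorem finite_subsets (A : Set ℤ) (hA : A.Infinite) :
    ∃ (T : Set ℤ) (N : ℕ → ℕ), T ⊆ A ∧ T.Infinite ∧ N 1 = 0 ∧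
    ∀ q r : ℕ, 1 ≤ q → Nat.Coprime r q →
      ∀ J : Finset ℤ, (J : Set ℤ) ⊆ T → (∀ t ∈ J, N q ≤ t.natAbs) → ∀ s ∈ J, ∀ H : Finset ℤ,
        ∃ C : ℕ, ∃ᶠ x : ℝ in atTop, x / Real.log x ^ C ≤ (Set.ncard {p : ℕ | (p : ℝ) ≤ x ∧
          p.Prime ∧ p ≡ r [MOD q] ∧ ∀ h ∈ H, (IsP (p + h) ↔ s + h ∈ J)} : ℝ) := by
  classical
  obtain ⟨a, haA, hainj⟩ : ∃ a : ℕ → ℤ, (∀ n, a n ∈ A) ∧ Function.Injective a :=
    ⟨fun n => ((Set.Infinite.natEmbedding A hA n : A) : ℤ),
      fun n => (Set.Infinite.natEmbedding A hA n : A).2,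
      fun m n h => (Set.Infinite.natEmbedding A hA).injective (Subtype.ext h)⟩
  have hf : Seq (fun t => ((1 : ℤ), a t)) :=
    { pos := fun t => one_pos
      prim := fun t => isCoprime_one_left
      inj := fun s t hst => hainj (Prod.mk.inj hst).2 }
  obtain ⟨T₁, -, hT₁, hF₁⟩ := full_one hf Set.univ Set.infinite_univ
  obtain ⟨T, hT1, hT, hsh⟩ := shifts (ι := Unit) (fun _ => a) (fun _ => hainj) T₁ hT₁
  have hF := hF₁.mono hT1
  replace hsh := hsh ()
  choose t₀ ht₀ using hsh
  -- the threshold modulo `q`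
  set M : ℕ → ℕ := fun q => ∑ r ∈ Finset.range q,
    (if h : 0 < q ∧ Nat.Coprime r q then t₀ q r h.1 h.2 else 0) with hM
  have hMq : ∀ q r (h : 0 < q) (h' : Nat.Coprime r q), r < q → t₀ q r h h' ≤ M q := by
    intro q r h h' hr
    have h1 : (if h : 0 < q ∧ Nat.Coprime r q then t₀ q r h.1 h.2 else 0) ≤ M q :=
      Finset.single_le_sum (f := fun r =>
        (if h : 0 < q ∧ Nat.Coprime r q then t₀ q r h.1 h.2 else 0)) (fun _ _ => Nat.zero_le _)
        (Finset.mem_range.2 hr)
    rw [dif_pos ⟨h, h'⟩] at h1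
    exact h1
  set N : ℕ → ℕ := fun q => if q = 1 then 0 else (∑ t ∈ Finset.range (M q), (a t).natAbs) + 1 with hN
  refine ⟨a '' T, N, ?_, hT.image hainj.injOn, by simp [hN], ?_⟩
  · rintro _ ⟨t, _, rfl⟩
    exact haA t
  intro q r hq hqr J hJ hJN s hs H
  set J0 : Finset ℕ := J.preimage a hainj.injOn with hJ0
  have hmem0 : ∀ t, t ∈ J0 ↔ a t ∈ J := fun t => by rw [hJ0, Finset.mem_preimage]
  have hJ0T : (J0 : Set ℕ) ⊆ T := by
    intro t ht
    obtain ⟨t', ht', he⟩ := hJ ((hmem0 t).1 ht)
    rwa [← hainj he]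
  obtain ⟨s0, hs0T, rfl⟩ := hJ hs
  have hs0 : s0 ∈ J0 := (hmem0 s0).2 hs
  have hback : ∀ h : ℤ, (∃ t ∈ J0, a s0 + h = a t) ↔ a s0 + h ∈ J := by
    intro h
    constructor
    · rintro ⟨t, ht, he⟩
      rw [he]
      exact (hmem0 t).1 ht
    · intro h1
      obtain ⟨t, _, he⟩ := hJ h1
      exact ⟨t, (hmem0 t).2 (by rw [he]; exact h1), he.symm⟩
  by_cases hq1 : q = 1
  · obtain ⟨C, hC⟩ := one hainj hF J0 hJ0T s0 hs0 H
    refine ⟨C, hC.mono fun p hp => ⟨hp.1, ?_, fun h hh => ?_⟩⟩
    · rw [hq1]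
      exact Nat.modEq_one
    · rw [hp.2 h hh, hback]
  · have hcop : Nat.Coprime (r % q) q := by
      rw [Nat.coprime_iff_gcd_eq_one, ← Nat.gcd_rec] at *
      rwa [Nat.gcd_comm]
    have hlt : r % q < q := Nat.mod_lt _ hq
    -- the union of `H` with the differences
    obtain ⟨C, hC⟩ := ht₀ q (r % q) hq hcop J0 hJ0T (by
      intro t ht
      refine (hMq q (r % q) hq hcop hlt).trans ?_
      by_contra hcon
      have h1 := hJN (a t) ((hmem0 t).1 ht)
      have h2 : (a t).natAbs ≤ ∑ t ∈ Finset.range (M q), (a t).natAbs :=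
        Finset.single_le_sum (f := fun t => (a t).natAbs) (fun _ _ => Nat.zero_le _)
          (Finset.mem_range.2 (by omega))
      rw [hN] at h1
      simp only [hq1, if_false] at h1
      omega) s0 hs0 H
    refine ⟨C, hC.mono fun p hp => ⟨hp.1, hp.2.1.trans (Nat.mod_modEq r q), fun h hh => ?_⟩⟩
    rw [← hback]
    constructor
    · intro h1
      by_contra hcon
      refine hp.2.2.2 h hh (fun t ht he => hcon ⟨t, ht, by rw [he]; ring⟩) h1
    · rintro ⟨t, ht, he⟩
      have h1 := hp.2.2.1 t ht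
      have h2 : (p : ℤ) + h = p + (a t - a s0) := by rw [← he]; ring
      rw [h2]
      exact h1

/-- Every infinite set `A` of integers contains an infinite set `T`, all of whose subsets `S` (finite or
infinite) are locally exact sets of primes: for `s ∈ S` and every finite set `H` the numbers `p + h`, `h ∈ H`,
are prime exactly for `s + h ∈ S`, for many primes `p`, also in progressions. -/
theorem result (A : Set ℤ) (hA : A.Infinite) : ∃ (T : Set ℤ) (N : ℕ → ℕ), T ⊆ A ∧ T.Infinite ∧ N 1 = 0 ∧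
    ∀ q r : ℕ, 1 ≤ q → Nat.Coprime r q →
      ∀ S : Set ℤ, S ⊆ T → (∀ t ∈ S, N q ≤ t.natAbs) → ∀ s ∈ S, ∀ H : Finset ℤ,
        ∃ C : ℕ, ∃ᶠ x : ℝ in atTop, x / Real.log x ^ C ≤ (Set.ncard {p : ℕ | (p : ℝ) ≤ x ∧
          p.Prime ∧ p ≡ r [MOD q] ∧ ∀ h ∈ H, (IsP (p + h) ↔ s + h ∈ S)} : ℝ) := by
  classical
  obtain ⟨T, N, h1, h2, h3, h4⟩ := finite_subsets A hA
  refine ⟨T, N, h1, h2, h3, fun q r hq hqr S hS hSN s hs H => ?_⟩
  set J : Finset ℤ := (insert s (H.image (fun h => s + h))).filter (fun t => t ∈ S) with hJ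
  have hJS : ∀ t ∈ J, t ∈ S := fun t ht => (Finset.mem_filter.1 ht).2
  obtain ⟨C, hC⟩ := h4 q r hq hqr J (fun t ht => hS (hJS t ht)) (fun t ht => hSN t (hJS t ht)) s
    (Finset.mem_filter.2 ⟨Finset.mem_insert_self _ _, hs⟩) H
  refine ⟨C, Often.mono hC fun p hp => ⟨hp.1, hp.2.1, fun h hh => ?_⟩⟩
  rw [hp.2.2 h hh, hJ, Finset.mem_filter]
  constructor
  · exact fun h5 => h5.2
  · exact fun h5 => ⟨Finset.mem_insert_of_mem (Finset.mem_image_of_mem _ hh), h5⟩

end Pool.Agent.Results.MP_68a45e_nt.InfiniteConstellations
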