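import Pool.Agent.K1H73.RDW.Sing
import Pool.Agent.K1H73.RDW.AP

/-!
# All prime tuples at once, in progressions with large moduli and short intervals, with restricted digits

For every `k`, every base `b`, ALL admissible tuples `m_0, ..., m_k` of distinct integers `0 ≤ m_l ≤ L ^ E`, ALL
progressions `n = a + q j` with `q, a ≤ L ^ E`, all `a + m_l` prime to `q`, and all intervals `B < j ≤ B + L`,
`1 ≤ B ≤ L ^ E`: let `K` be the integer part of `log_b (L / 3)` and let `A i` (`i < K`) be arbitrary sets of digits with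
`∏ |A i| ≥ exp (- c K) b ^ K`. Among the `j` of the interval whose last `K` digits belong to the `A i` at most
`C C_m Φ_m(q) ∏ |A i| / K ^ (k + 1)` are such that all `n + m_l` are primes, and, if `A 0` contains a digit `d` with all
`a + q d + m_l` prime to `b`, at least `κ C_m Φ_m(q) ∏ |A i| / K ^ (k + 1)` are such that all `n + m_l` are products of
at most `r` primes `p`, all with `p ^ r > b ^ K`. `C_m` is the constant of Hardy and Littlewood, `Φ_m(q)` the product of
`1 / (1 - w(p) / p)` over the primes `p` dividing `q`.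

The sieve for integers with restricted digits is the one of `Pool.Agent.Y816.PD` of the starting files (`uni_fun`; a
single tuple without the constant, `q = 1`, is `digits_tuple`, `uni_int` there, not handed in); new here: the uniformity
in the tuple and in the progression, and the constant.
-/

set_option autoImplicit false

namespace Pool.Agent.Results.MP_68a45e_nt.RestrictedDigits

open Finset Filter
open Pool.Agent.K1H73.RDW

variable {k : ℕ}

/-- the number `w(q)` of the residue classes modulo `q` occupied by `m_0, ..., m_k` -/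
def w (m : Fin (k + 1) → ℕ) (q : ℕ) : ℕ := (univ.image (fun l => m l % q)).card

/-- no prime `q` has all its residue classes occupied -/
def Admissible (m : Fin (k + 1) → ℕ) : Prop := ∀ q : ℕ, q.Prime → w m q < q

/-- the factor of the constant at `q`; for even `m_l` it is `2 ^ k` for `q = 2` -/
noncomputable def factor (m : Fin (k + 1) → ℕ) (q : ℕ) : ℝ :=
  (1 - (w m q : ℝ) / q) / (1 - 1 / (q : ℝ)) ^ (k + 1)

/-- the constant `C_m` of Hardy and Littlewood, the product of the factors over all primes -/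
noncomputable def const (m : Fin (k + 1) → ℕ) : ℝ := ∏' q : Nat.Primes, factor m q

/-- the factor `Φ_m(q)` of the progressions with the modulus `q` -/
noncomputable def Phi (m : Fin (k + 1) → ℕ) (q : ℕ) : ℝ := ∏ p ∈ q.primeFactors, (1 - (w m p : ℝ) / p)⁻¹

/-- `v > 1` is a product of at most `r` primes, all of them with `z < p ^ r` -/
def Almost (r z v : ℕ) : Prop := 1 < v ∧ v.primeFactorsList.length ≤ r ∧ ∀ p : ℕ, p.Prime → p ∣ v → z < p ^ r

/-- the number of the elements of `S` whose `i`-th digit in base `b` belongs to `A i` for all `i < K` -/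
noncomputable def count (b K : ℕ) (A : ℕ → Finset ℕ) (S : Set ℕ) : ℕ :=
  {j : ℕ | j ∈ S ∧ ∀ i < K, j / b ^ i % b ∈ A i}.ncard

/-- the `j` in `(B, B + L]` for which all `a + q j + m_l` are almost primes -/
def P (m : Fin (k + 1) → ℕ) (q a B L r z : ℕ) : Set ℕ :=
  {j | (B < j ∧ j ≤ B + L) ∧ ∀ l, Almost r z (a + q * j + m l)}

/-- the `j` in `(B, B + L]` for which all `a + q j + m_l` are primes -/
def T (m : Fin (k + 1) → ℕ) (q a B L : ℕ) : Set ℕ := {j | (B < j ∧ j ≤ B + L) ∧ ∀ l, (a + q * j + m l).Prime}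

theorem factor_eq (m : Fin (k + 1) → ℕ) (q : ℕ) : factor m q = Pool.Agent.H386R2.HL.localFactor m q := by
  unfold factor Pool.Agent.H386R2.HL.localFactor w Pool.Agent.H386R2.HL.nu
  rw [inv_pow, div_eq_mul_inv, mul_comm]

theorem const_eq (m : Fin (k + 1) → ℕ) : const m = Pool.Agent.H386R2.HL.singularSeries m := by
  unfold const Pool.Agent.H386R2.HL.singularSeries
  simp only [factor_eq]

theorem dvd_GA (m : Fin (k + 1) → ℕ) {q : ℕ} (hq : q.Prime) (n : ℕ) : (q : ℤ) ∣ GA m n ↔ ∃ l, q ∣ n + m l := by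
  unfold GA
  rw [(Nat.prime_iff_prime_int.1 hq).dvd_finsetProd_iff]
  constructor
  · rintro ⟨l, -, hl⟩
    exact ⟨l, by exact_mod_cast hl⟩
  · rintro ⟨l, hl⟩
    exact ⟨l, mem_univ _, by exact_mod_cast hl⟩

theorem natAbs_GA (m : Fin (k + 1) → ℕ) (n : ℕ) : (GA m n).natAbs = ∏ l, (n + m l) := by
  unfold GA
  have : ∏ l, ((n : ℤ) + m l) = ((∏ l, (n + m l) : ℕ) : ℤ) := by push_cast; rfl
  rw [this, Int.natAbs_natCast]

theorem nf {m : Fin (k + 1) → ℕ} (hm : Function.Injective m) (hadm : Admissible m) : NF (GA m) := by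
  rw [GA_eq hm]
  apply NF_GH
  intro p hp
  rw [nu_HA m hp.pos]
  exact hadm p hp

theorem Phi_eq {m : Fin (k + 1) → ℕ} (hm : Function.Injective m) (q : ℕ) :
    Pool.Agent.K1H73.RDW.Phi (GA m) q = Phi m q := by
  unfold Pool.Agent.K1H73.RDW.Phi Phi
  apply prod_congr rfl
  intro p hp
  have hpp := Nat.prime_of_mem_primeFactors hp
  rw [GA_eq hm, om_GH _ hpp, nu_HA m hpp.pos]
  rfl

/-- **All prime tuples at once, in progressions and short intervals, with restricted digits.** -/
theorem result (k E : ℕ) :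
    (∀ m : Fin (k + 1) → ℕ, Function.Injective m →
      HasProd (fun q : Nat.Primes => factor m q) (const m) ∧ (Admissible m → 0 < const m)) ∧
    ∃ c : ℝ, 0 < c ∧ ∃ r₀ : ℕ, 2 ≤ r₀ ∧ ∀ r : ℕ, r₀ ≤ r → ∀ b : ℕ, 2 ≤ b → ∃ κ C : ℝ, 0 < κ ∧ 0 < C ∧
      ∀ᶠ L : ℕ in atTop, ∀ m : Fin (k + 1) → ℕ, Function.Injective m → Admissible m → (∀ l, m l ≤ L ^ E) →
        ∀ q a : ℕ, 1 ≤ q → q ≤ L ^ E → a ≤ L ^ E → (∀ l, (a + m l).Coprime q) →
        (∃ d < b, ∀ l, (a + q * d + m l).Coprime b) ∧
        ∀ B : ℕ, 1 ≤ B → B ≤ L ^ E → ∀ K : ℕ, K = Nat.log b (L / 3) →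
          ∀ A : ℕ → Finset ℕ, (∀ i < K, A i ⊆ range b) →
            (b : ℝ) ^ K ≤ Real.exp (c * K) * ∏ i ∈ range K, ((A i).card : ℝ) →
          ((∃ d ∈ A 0, ∀ l, (a + q * d + m l).Coprime b) →
            κ * const m * Phi m q * (∏ i ∈ range K, ((A i).card : ℝ)) / (K : ℝ) ^ (k + 1) ≤
              count b K A (P m q a B L r (b ^ K))) ∧
          (count b K A (T m q a B L) : ℝ) ≤
            C * const m * Phi m q * (∏ i ∈ range K, ((A i).card : ℝ)) / (K : ℝ) ^ (k + 1) := by
  classical
  constructor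
  · intro m hm
    constructor
    · have h := (Pool.Agent.H386R2.HL.multipliable_localFactor m hm).hasProd
      rw [const_eq]
      unfold Pool.Agent.H386R2.HL.singularSeries
      simp only [factor_eq]
      exact h
    · intro hadm
      rw [const_eq]
      exact Pool.Agent.H386R2.HL.singularSeries_pos hm hadm
  · obtain ⟨c, hc, r₀, hr₀, h⟩ := main (k + 1) ((2 * E + 6) * (k + 1)) (by omega)
    obtain ⟨v, Cv, hv, hCv, hW⟩ := WG_sing (k + 1) (4 * E)
    obtain ⟨u, hu, hAff⟩ := WG_affine (k + 1) (4 * E)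
    refine ⟨c, hc, r₀, hr₀, fun r hr b hb => ?_⟩
    have h2r : 2 ≤ r := hr₀.trans hr
    obtain ⟨κ, C, hκ, hC, h1⟩ := h r hr b hb
    have hb1 : (1 : ℝ) < b := by exact_mod_cast (by omega : 1 < b)
    have hlb : 0 < Real.log b := Real.log_pos hb1
    refine ⟨κ * u * v / Real.log b ^ (k + 1), C * Cv / Real.log b ^ (k + 1), by positivity, by positivity, ?_⟩
    filter_upwards [h1, eventually_ge_atTop (3 * b ^ (2 * (k + 1) ^ 2 + 2 * (k + 1) + 2 * r + 3))] with L hL hL2
      m hm hadm hmL q a hq1 hqL haL hcop0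
    have hPF0 : PF (k + 1) (GA m) := by
      rw [GA_eq hm]
      exact PF_GH _ (HA_card m)
    have hNF0 := nf hm hadm
    have hcopq : IsCoprime (GA m a) (q : ℤ) := by
      unfold GA
      apply IsCoprime.prod_left
      intro l _
      have h2 := Nat.isCoprime_iff_coprime.2 (hcop0 l)
      push_cast at h2
      exact h2
    have hPF := hPF0.affine a q
    have hNF := hNF0.affine hPF0 hcopq
    have hcop : ∀ d : ℕ, (∀ l, (a + q * d + m l).Coprime b) ↔ (GA m (a + q * d)).natAbs.Coprime b := by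
      intro d
      rw [natAbs_GA]
      constructor
      · intro h3
        exact Nat.Coprime.prod_left fun l _ => h3 l
      · intro h3 l
        exact h3.of_dvd_left (dvd_prod_of_mem (fun l => a + q * d + m l) (mem_univ l))
    refine ⟨?_, ?_⟩
    · obtain ⟨d, hd, hd2⟩ := exists_digit hPF hNF (show 0 < b by omega)
      exact ⟨d, hd, (hcop d).2 hd2⟩
    intro B hB1 hB K hK A hA hprod
    obtain ⟨hKK, hb3, hb4⟩ := Pool.Agent.Y816.PD.log_three hb (2 * (k + 1) ^ 2 + 2 * (k + 1) + 2 * r + 3) hL2 hK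
    obtain ⟨e1, e2, e3, e4⟩ := hL K hK
    have hL3 : 3 ≤ L := by
      have : 0 < b ^ (2 * (k + 1) ^ 2 + 2 * (k + 1) + 2 * r + 3) := by positivity
      omega
    have hNA : Pool.Agent.Y816.PD.NA K A = ∏ i ∈ range K, ((A i).card : ℝ) := rfl
    have hNA0 := Pool.Agent.Y816.PD.NA_nonneg K A
    have hK0 : (0 : ℝ) < K := by exact_mod_cast e1
    have hKb : K < b ^ K := Nat.lt_pow_self (by omega)
    have hsize : ∀ j : ℕ, j < B + 2 * L → (GA m (a + q * j)).natAbs ≤ L ^ ((2 * E + 6) * (k + 1)) := by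
      intro j hj
      rw [natAbs_GA]
      have h5 : ∀ l, a + q * j + m l ≤ L ^ (2 * E + 6) := by
        intro l
        have h6 : L ≤ L ^ (E + 1) := Nat.le_self_pow (by omega) L
        have h7 : L ^ E ≤ L ^ (E + 1) := Nat.pow_le_pow_right (by omega) (by omega)
        have h8 := hmL l
        have h9 : j ≤ 3 * L ^ (E + 1) := by omega
        have h10 : q * j ≤ L ^ E * (3 * L ^ (E + 1)) := Nat.mul_le_mul hqL h9
        have h11 : 1 ≤ L ^ E := Nat.one_le_pow _ _ (by omega)
        have h12 : 1 ≤ L ^ (E + 1) := Nat.one_le_pow _ _ (by omega)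
        have h13 : L ^ E ≤ L ^ E * L ^ (E + 1) := Nat.le_mul_of_pos_right _ (by omega)
        calc a + q * j + m l ≤ 5 * (L ^ E * L ^ (E + 1)) := by nlinarith
          _ ≤ L ^ 5 * (L ^ E * L ^ (E + 1)) := by
              apply Nat.mul_le_mul_right
              calc 5 ≤ 3 ^ 5 := by norm_num
                _ ≤ L ^ 5 := Nat.pow_le_pow_left hL3 5
          _ = L ^ (2 * E + 6) := by rw [← pow_add, ← pow_add]; congr 1; ring
      calc ∏ l, (a + q * j + m l) ≤ ∏ l : Fin (k + 1), L ^ (2 * E + 6) := prod_le_prod' fun l _ => h5 l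
        _ = L ^ ((2 * E + 6) * (k + 1)) := by
            rw [prod_const, card_univ, Fintype.card_fin, ← pow_mul]
    obtain ⟨h5, h6⟩ := e4 (fun j => GA m (a + q * j)) hPF hNF B hsize A hA hprod
    -- the sieve product
    have hpow : L ^ E ≤ (b ^ K) ^ (4 * E) := by
      calc L ^ E ≤ (b ^ (4 * K)) ^ E := Nat.pow_le_pow_left e3.le E
        _ = (b ^ K) ^ (4 * E) := by rw [← pow_mul, ← pow_mul]; congr 1; ring
    obtain ⟨hW1, hW2⟩ := hW (b ^ K) (by omega) m hm (fun l => (hmL l).trans hpow)
    obtain ⟨hA1, hA2⟩ := hAff (GA m) hPF0 hNF0 (b ^ K) (by omega) a q hq1 (hqL.trans hpow) hcopq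
    rw [← const_eq, Nat.cast_pow, Real.log_pow, mul_pow] at hW1 hW2
    rw [Phi_eq hm] at hA1 hA2
    have hPhi0 : 0 ≤ Phi m q := by
      rw [← Phi_eq hm]
      unfold Pool.Agent.K1H73.RDW.Phi
      exact prod_nonneg fun p hp => zero_le_one.trans (one_le_fac_inv hPF0 hNF0 (Nat.prime_of_mem_primeFactors hp))
    constructor
    · rintro ⟨d, hd, hcopd⟩
      have h7 := h5 (P m q a B L r (b ^ K)) ((finite_toSet (Ioc B (B + L))).subset fun n hn => by
          rw [mem_coe, mem_Ioc]; exact hn.1) (by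
        intro j hj1 hj2 hj3
        obtain ⟨hj4, hj5⟩ := hj3
        have hv : ∀ l, 1 < a + q * j + m l := by
          intro l
          have : 2 ≤ q * j := by nlinarith
          omega
        refine ⟨⟨hj1, hj2⟩, fun l => ⟨hv l, ?_, fun p hp hpd => hj4 p hp ((dvd_GA m hp _).2 ⟨l, hpd⟩)⟩⟩
        have hj6 : (GA m (a + q * j)).natAbs.primeFactorsList.length ≤ r := hj5
        rw [natAbs_GA] at hj6
        have hne : ∏ l, (a + q * j + m l) ≠ 0 := prod_ne_zero_iff.2 fun l _ => by
          have := hv l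
          omega
        exact (Nat.primeFactorsList_sublist_of_dvd (dvd_prod_of_mem (fun l => a + q * j + m l) (mem_univ l))
          hne).length_le.trans hj6) ⟨d, hd, (hcop d).1 hcopd⟩
      refine le_trans ?_ h7
      rw [← hNA]
      calc κ * u * v / Real.log b ^ (k + 1) * const m * Phi m q * Pool.Agent.Y816.PD.NA K A / (K : ℝ) ^ (k + 1) =
          κ * Pool.Agent.Y816.PD.NA K A * (u * Phi m q *
            (v * const m / ((K : ℝ) ^ (k + 1) * Real.log b ^ (k + 1)))) := by
            field_simp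
        _ ≤ κ * Pool.Agent.Y816.PD.NA K A * (u * Phi m q * Pool.Agent.Y816.PD.WG (GA m) (b ^ K)) := by
            apply mul_le_mul_of_nonneg_left _ (by positivity)
            exact mul_le_mul_of_nonneg_left hW1 (by positivity)
        _ ≤ _ := mul_le_mul_of_nonneg_left hA1 (by positivity)
    · obtain ⟨z, hz⟩ : ∃ z, z = Nat.sqrt (b ^ K) := ⟨_, rfl⟩
      have h7 := h6 (T m q a B L) ((range (z + 1) : Finset ℕ) : Set ℕ) (finite_toSet _) (by
        rw [Set.ncard_coe_finset, card_range]
        omega) (by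
        rintro j ⟨hj, hp⟩
        refine ⟨hj, ?_⟩
        rcases Nat.lt_or_ge j (z + 1) with h8 | h8
        · left
          rw [mem_coe, mem_range]
          exact h8
        · right
          intro p hpp hd
          have hd' : (p : ℤ) ∣ GA m (a + q * j) := hd
          rw [dvd_GA m hpp] at hd'
          obtain ⟨l, hl⟩ := hd'
          have h9 := (Nat.prime_dvd_prime_iff_eq hpp (hp l)).1 hl
          have h10 : b ^ K < (z + 1) ^ 2 := by
            rw [hz, sq]
            exact Nat.lt_succ_sqrt _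
          have h11 : j ≤ q * j := Nat.le_mul_of_pos_left j hq1
          calc b ^ K ≤ (z + 1) ^ 2 := h10.le
            _ ≤ p ^ 2 := Nat.pow_le_pow_left (by omega) 2
            _ ≤ p ^ r := Nat.pow_le_pow_right hpp.pos h2r)
      refine le_trans h7 ?_
      rw [← hNA]
      calc C * Pool.Agent.Y816.PD.NA K A * Pool.Agent.Y816.PD.WG (fun j => GA m (a + q * j)) (b ^ K) ≤
          C * Pool.Agent.Y816.PD.NA K A * (Phi m q * (Cv * const m / ((K : ℝ) ^ (k + 1) * Real.log b ^ (k + 1)))) := by
            apply mul_le_mul_of_nonneg_left _ (by positivity)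
            exact hA2.trans (mul_le_mul_of_nonneg_left hW2 hPhi0)
        _ = _ := by
            field_simp

end Pool.Agent.Results.MP_68a45e_nt.RestrictedDigits
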