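import Pool.Agent.K1H51.HL.Fin
import Pool.Agent.K1H51.LD.Frac

/-!
# The formula of Hardy and Littlewood for almost all vectors of shifts from families with a small large spectrum,
for instance from explicit families of only `(log N) ^ C` shifts

The exponential sum bounds for the primes, the singular series and the passage to unweighted counts are from the
starting files (`Pool.Agent.H373R2.T7`, `Pool.Agent.H560R3.GB`, `Pool.Agent.H807R2.Dav`).
-/

set_option autoImplicit false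

namespace Pool.Agent.Results.MP_68a45e_nt.SmallSpectrumShifts

open Finset

open Classical in
/-- The large spectrum modulo `M` of the family `s j`, `j ∈ I`, at the level `η`: the frequencies `t` modulo `M`
for which the sum of `e (t (s j) / M)` over the `j ∈ I` has absolute value larger than `η |I|`. -/
noncomputable def spectrum {ι : Type} (M : ℕ) (I : Finset ι) (s : ι → ℤ) (η : ℝ) : Finset ℕ :=
  (range M).filter (fun t : ℕ => η * I.card <
    ‖∑ j ∈ I, Complex.exp (2 * Real.pi * Complex.I * (((t : ℝ) * ((s j : ℝ) / M) : ℝ) : ℂ))‖)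

/-- `ν(p)`: the number of the residues `r < p` with `p ∣ r (r + a 1) ... (r + a k)`. -/
def nu {k : ℕ} (a : Fin k → ℕ) (p : ℕ) : ℕ := ((range p).filter (fun r => p ∣ r ∨ ∃ i, p ∣ r + a i)).card

/-- The product over the primes `p ≤ z` of `(1 - ν(p) / p) / (1 - 1 / p) ^ (k + 1)`. -/
noncomputable def sing {k : ℕ} (a : Fin k → ℕ) (z : ℕ) : ℝ :=
  ∏ p ∈ (Icc 1 z).filter Nat.Prime, (1 - (nu a p : ℝ) / p) / (1 - 1 / (p : ℝ)) ^ (k + 1)

/-- The primes `p ≤ N` for which all the `p + a i` are primes. -/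
def tuples {k : ℕ} (a : Fin k → ℕ) (N : ℕ) : Finset ℕ := (Icc 1 N).filter (fun p => p.Prime ∧ ∀ i, (p + a i).Prime)

/-- For every prime `p` there is an integer `r` such that `p` divides neither `r` nor any `r + a i`. -/
def Admissible {k : ℕ} (a : Fin k → ℕ) : Prop :=
  ∀ p : ℕ, p.Prime → ∃ r : ℤ, ¬ (p : ℤ) ∣ r ∧ ∀ i, ¬ (p : ℤ) ∣ r + (a i : ℤ)

/-- The formula of Hardy and Littlewood for the shifts `a 1, ..., a k` and the primes up to `N`: the
singular series converges, its value `S` predicts the number of the `p ∈ tuples a N`, counted with the weights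
`log p * ∏ i, log (p + a i)`, with an error of at most `N / log ^ U N`, and, if the shifts are admissible, `S` is
positive and `S N / log ^ (k + 1) N` predicts the number of the `p ∈ tuples a N` with a relative error of at most `ε`. -/
def Holds {k : ℕ} (ε : ℝ) (U N : ℕ) (a : Fin k → ℕ) : Prop :=
  ∃ S : ℝ, Filter.Tendsto (fun z => sing a z) Filter.atTop (nhds S) ∧
    |∑ p ∈ tuples a N, Real.log p * ∏ i, Real.log ((p : ℝ) + a i) - S * N| ≤ (N : ℝ) / Real.log N ^ U ∧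
    (Admissible a → 0 < S ∧
      |((tuples a N).card : ℝ) - S * (N / Real.log N ^ (k + 1))| ≤ ε * (S * (N / Real.log N ^ (k + 1))))

open Classical in
/-- The number of the vectors `q`, with `q i ∈ I i` and `0 ≤ s i (q i) ≤ B N` for all `i`, for which `Holds` fails for the
shifts `s i (q i)`. -/
noncomputable def exceptions {k : ℕ} {ι : Fin k → Type} (ε : ℝ) (B U N : ℕ) (I : ∀ i, Finset (ι i)) (s : ∀ i, ι i → ℤ) : ℝ :=
  (((Fintype.piFinset I).filter (fun q => (∀ i, 0 ≤ s i (q i) ∧ s i (q i) ≤ B * N) ∧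
    ¬ Holds ε U N (fun i => (s i (q i)).toNat))).card : ℝ)

/-- The pairs `(p, u)` with a prime `p ≤ P` and `1 ≤ u ≤ S`. -/
def pairs (P S : ℕ) : Finset (ℕ × ℕ) := ((Icc 1 P).filter Nat.Prime) ×ˢ (Icc 1 S)

/-- The least non-negative residue of `c + u / p` modulo `M`, for the pair `j = (p, u)`. -/
def frac (M : ℕ) (c : ℤ) (j : ℕ × ℕ) : ℤ := (c + j.2 * (((j.1 : ZMod M)⁻¹.val : ℕ) : ℤ)) % M

lemma nu_eq {k : ℕ} (a : Fin k → ℕ) (p : ℕ) : Pool.Agent.H373R2.T7.nuP (fun i => (a i : ℤ)) p = nu a p := by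
  unfold Pool.Agent.H373R2.T7.nuP nu
  congr 1
  apply filter_congr
  intro r _
  have h1 : ∀ i, ((p : ℤ) ∣ (r : ℤ) + (a i : ℤ)) ↔ p ∣ r + a i := by
    intro i
    rw [← Int.natCast_add, Int.natCast_dvd_natCast]
  simp only [h1]

lemma sing_eq {k : ℕ} (a : Fin k → ℕ) : (fun z => Pool.Agent.H373R2.T7.singZ (fun i => (a i : ℤ)) z) = fun z => sing a z := by
  funext z
  unfold Pool.Agent.H373R2.T7.singZ sing
  apply prod_congr rfl
  intro p _
  rw [nu_eq]

lemma count_eq {k : ℕ} (a : Fin k → ℕ) (N : ℕ) : Pool.Agent.H373R2.T7.tupleCount (fun i => (a i : ℤ)) N =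
    ∑ p ∈ tuples a N, Real.log p * ∏ i, Real.log ((p : ℝ) + a i) := Pool.Agent.H560R3.GB.tupleCount_nat a N

theorem general (k B U : ℕ) (hk : 1 ≤ k) (ε : ℝ) (hε : 0 < ε) : ∃ U1 : ℕ, 1 ≤ U1 ∧ ∀ K : ℕ, ∃ N₀ : ℕ, ∀ N : ℕ, N₀ ≤ N →
    ∀ (ι : Fin k → Type) (I : ∀ i, Finset (ι i)) (s : ∀ i, ι i → ℤ) (M : Fin k → ℕ), (∀ i, (3 * B + 5) * N ≤ M i) →
    (∀ i, ((spectrum (M i) (I i) (s i) (1 / Real.log N ^ U1)).card : ℝ) * N ≤ Real.log N ^ K * M i) →
    exceptions ε B U N I s ≤ (∏ i, ((I i).card : ℝ)) / Real.log N ^ U := by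
  classical
  obtain ⟨c, hc, hlow⟩ := Pool.Agent.H373R2.T7.singZ_low k
  obtain ⟨U1, hU1, h0⟩ := Pool.Agent.K1H51.HL.small_tuples k B (U + 1) hk
  refine ⟨U1, hU1, fun K => ?_⟩
  obtain ⟨N₀, h0⟩ := h0 K
  obtain ⟨N₁, h1⟩ := Pool.Agent.H560R3.GB.tuple_transfer k B c ε hc hε
  obtain ⟨N₂, h2⟩ := Pool.Agent.H373R2.T7.ev_L' 1
  refine ⟨N₀ + N₁ + N₂ + 3, fun N hN ι I s M hM hspec => ?_⟩
  have hL := h2 N (by omega)
  have hL0 : 0 < Real.log (N : ℝ) := by linarith
  have hN0 : (0 : ℝ) ≤ N := Nat.cast_nonneg _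
  obtain ⟨𝒮, h𝒮⟩ : ∃ 𝒮 : Finset (∀ i, ι i), 𝒮 = (Fintype.piFinset I).filter (fun q => (∀ i, 0 ≤ s i (q i) ∧ s i (q i) ≤ B * N) ∧
    ¬ Holds ε U N (fun i => (s i (q i)).toNat)) := ⟨_, rfl⟩
  have h3 := h0 N (by omega) ι I s M hM hspec 𝒮 (by
    intro q hq
    rw [h𝒮, mem_filter, Fintype.mem_piFinset] at hq
    refine ⟨fun i => ⟨hq.1 i, hq.2.1 i⟩, fun hcon => hq.2.2 ?_⟩
    obtain ⟨S, hS, hS2⟩ := hcon
    have hcast : (fun i => s i (q i)) = fun i => (((s i (q i)).toNat : ℕ) : ℤ) := by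
      funext i
      rw [Int.toNat_of_nonneg (hq.2.1 i).1]
    rw [hcast] at hS hS2
    have hS' := hS
    rw [sing_eq] at hS
    refine ⟨S, hS, ?_, fun hadm => ?_⟩
    · rw [← count_eq]
      refine hS2.trans ?_
      apply div_le_div_of_nonneg_left hN0 (by positivity)
      exact pow_le_pow_right₀ hL (by omega)
    · have hcS : c ≤ S := ge_of_tendsto' hS' (hlow _ hadm)
      refine ⟨lt_of_lt_of_le hc hcS, ?_⟩
      apply h1 N (by omega) (fun i => (s i (q i)).toNat) (fun i => ?_) S hcS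
      · refine hS2.trans ?_
        apply div_le_div_of_nonneg_left hN0 hL0
        exact le_self_pow₀ hL (by omega)
      · have h5 : s i (q i) ≤ ((B * N : ℕ) : ℤ) := by push_cast; exact (hq.2.1 i).2
        omega)
  unfold exceptions
  rw [← h𝒮]
  refine h3.trans ?_
  apply div_le_div_of_nonneg_left (prod_nonneg fun i _ => Nat.cast_nonneg _) (by positivity)
  exact pow_le_pow_right₀ hL (by omega)

/-- Let `k ≥ 1`, `B`, `U` and `ε > 0` be fixed.
* There is a `U1` such that the following holds for every `K`, for all large `N` and all `M i ≥ (3 B + 5) N`. For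
  `i = 1, ..., k` let `s i j`, `j ∈ I i`, be an arbitrary finite family of integers for which at most
  `log ^ K N * (M i) / N` frequencies modulo `M i` have an exponential sum larger than `|I i| / log ^ U1 N`. Then the
  formula of Hardy and Littlewood holds for the primes up to `N` and all the vectors of shifts
  `s 1 (q 1), ..., s k (q k)` from `[0, B N]`, up to at most `(|I 1| ... |I k|) / log ^ U N` exceptions.
* There is a `C` such that for all large `N`, all primes `M i` with `(6 B + 8) N ≤ M i ≤ (12 B + 16) N` and all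
  integers `c i` this holds for the families of the residues `c i + u / p` modulo `M i`, where `p ≤ log ^ C N` is
  prime and `u ≤ log ^ (2 C) N`; at least `1 / (100 (B + 1))` of the members of each family lie in `[1, N]`. -/
theorem result (k B U : ℕ) (hk : 1 ≤ k) (ε : ℝ) (hε : 0 < ε) :
    (∃ U1 : ℕ, ∀ K : ℕ, ∃ N₀ : ℕ, ∀ N : ℕ, N₀ ≤ N →
      ∀ (ι : Fin k → Type) (I : ∀ i, Finset (ι i)) (s : ∀ i, ι i → ℤ) (M : Fin k → ℕ), (∀ i, (3 * B + 5) * N ≤ M i) →
      (∀ i, ((spectrum (M i) (I i) (s i) (1 / Real.log N ^ U1)).card : ℝ) * N ≤ Real.log N ^ K * M i) →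
      exceptions ε B U N I s ≤ (∏ i, ((I i).card : ℝ)) / Real.log N ^ U) ∧
    (∃ C N₀ : ℕ, ∀ N : ℕ, N₀ ≤ N → ∀ I : Finset (ℕ × ℕ), I = pairs ⌊Real.log N ^ C⌋₊ ⌊Real.log N ^ (2 * C)⌋₊ →
      ∀ M : Fin k → ℕ, (∀ i, (M i).Prime ∧ (6 * B + 8) * N ≤ M i ∧ M i ≤ (12 * B + 16) * N) → ∀ c : Fin k → ℤ,
      (∀ i, (I.card : ℝ) / (100 * (B + 1)) ≤ ((I.filter (fun j => 1 ≤ frac (M i) (c i) j ∧ frac (M i) (c i) j ≤ N)).card : ℝ)) ∧
      exceptions ε B U N (fun _ => I) (fun i => frac (M i) (c i)) ≤ (I.card : ℝ) ^ k / Real.log N ^ U) := by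
  classical
  obtain ⟨U1, hU1, h1⟩ := general k B U hk ε hε
  refine ⟨⟨U1, h1⟩, ?_⟩
  obtain ⟨n1, h2⟩ := h1 0
  obtain ⟨C, n2, h3⟩ := Pool.Agent.K1H51.LD.frac_param B U1 hU1
  refine ⟨C, n1 + n2 + 1, fun N hN I hI M hM c => ?_⟩
  have hI' : I = Pool.Agent.K1H51.LD.pairs ⌊Real.log N ^ C⌋₊ ⌊Real.log N ^ (2 * C)⌋₊ := hI
  have h4 : ∀ i, (∀ t : ℕ, 0 < t → t < M i → ‖∑ j ∈ I, Pool.Agent.H807R2.Dav.ee ((t : ℝ) * ((frac (M i) (c i) j : ℝ) / M i))‖ ≤
      (1 / Real.log N ^ U1) * I.card) ∧ (I.card : ℝ) / (100 * (B + 1)) ≤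
        ((I.filter (fun j => 1 ≤ frac (M i) (c i) j ∧ frac (M i) (c i) j ≤ N)).card : ℝ) := by
    intro i
    have := h3 N (by omega) (M i) (hM i).1 (hM i).2.1 (hM i).2.2 (c i)
    rw [← hI'] at this
    exact this
  refine ⟨fun i => (h4 i).2, ?_⟩
  have key := h2 N (by omega) (fun _ => ℕ × ℕ) (fun _ => I) (fun i => frac (M i) (c i)) M (fun i => by
    refine le_trans ?_ (hM i).2.1
    exact Nat.mul_le_mul_right _ (by omega)) (fun i => by
    have hsub : spectrum (M i) I (frac (M i) (c i)) (1 / Real.log N ^ U1) ⊆ {0} := by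
      intro t ht
      unfold spectrum at ht
      rw [mem_filter, mem_range] at ht
      rw [mem_singleton]
      by_contra hne
      have h6 := (h4 i).1 t (by omega) ht.1
      exact absurd ht.2 (not_lt.2 h6)
    have hc : ((spectrum (M i) I (frac (M i) (c i)) (1 / Real.log N ^ U1)).card : ℝ) ≤ 1 := by
      exact_mod_cast (card_le_card hsub).trans (by simp)
    have hNM : (N : ℝ) ≤ M i := by
      have : N ≤ (6 * B + 8) * N := Nat.le_mul_of_pos_left _ (by omega)
      exact_mod_cast this.trans (hM i).2.1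
    rw [pow_zero, one_mul]
    calc ((spectrum (M i) I (frac (M i) (c i)) (1 / Real.log N ^ U1)).card : ℝ) * N ≤ 1 * N := mul_le_mul_of_nonneg_right hc (Nat.cast_nonneg _)
      _ = N := one_mul _
      _ ≤ M i := hNM)
  refine key.trans (le_of_eq ?_)
  rw [prod_const, card_univ, Fintype.card_fin]

end Pool.Agent.Results.MP_68a45e_nt.SmallSpectrumShifts
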