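import Pool.Agent.K1H92.UC.Sing

/-!
# Chen's theorem in all prime constellations at once, with the constant of Hardy and Littlewood

For every `k` there are `t` and `κ > 0`, depending on `k` alone, such that for ALL admissible tuples
`m_0, ..., m_k` of distinct integers `0 ≤ m_l ≤ K X`, all `i ≠ j` and all intervals `(A, B]`, `B ≤ X`,
`B - A ≥ θ X`, at least `κ C_m (B - A) / log ^ (k + 1) X` integers `n` in `(A, B]` are such that `n + m_i` is
prime, `n + m_j` is a product of at most two primes `> X ^ (1/9)`, and all `n + m_l` are products of at most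
`t` primes `> X ^ (1/t)`. `C_m` is the constant in the conjecture of Hardy and Littlewood. For every
colouring almost all of these `n` are covered by pairwise disjoint monochromatic arithmetic progressions of
`s` terms with differences at most a power of `log X`.

Core of the proof: `Pool.Agent.X32.Uni.linP` of the starting library (never handed in), and the comparison of the
sieve product with the constant `C_m`, uniform in the tuple (`Pool.Agent.K1H92.UC.VL_ge`).
-/

set_option autoImplicit false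

namespace Pool.Agent.Results.MP_68a45e_nt.UniformChen

open Finset

variable {k : ℕ}

/-- the number `w(q)` of the residue classes modulo `q` occupied by `m_0, ..., m_k` -/
def w (m : Fin (k + 1) → ℕ) (q : ℕ) : ℕ := (univ.image (fun l => m l % q)).card

/-- no prime `q` has all its residue classes occupied -/
def Admissible (m : Fin (k + 1) → ℕ) : Prop := ∀ q : ℕ, q.Prime → w m q < q

/-- the factor of the constant at `q`; for even `m_l` it is `2 ^ k` for `q = 2` -/
noncomputable def factor (m : Fin (k + 1) → ℕ) (q : ℕ) : ℝ :=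
  (1 - (w m q : ℝ) / q) / (1 - 1 / (q : ℝ)) ^ (k + 1)

/-- the constant `C_m` of Hardy and Littlewood, the product of the factors over all primes -/
noncomputable def const (m : Fin (k + 1) → ℕ) : ℝ := ∏' q : Nat.Primes, factor m q

/-- `v > 1` is a product of at most `r` primes, all of them larger than `y` -/
def Almost (r : ℕ) (y : ℝ) (v : ℕ) : Prop :=
  1 < v ∧ v.primeFactorsList.length ≤ r ∧ ∀ q : ℕ, q.Prime → q ∣ v → y < q

open Classical in
/-- the `n` in `(A, B]` for which `n + m_i` is prime, `n + m_j` is a product of at most two primes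
`> X ^ (1/9)`, and all `n + m_l` are products of at most `t` primes `> X ^ (1/t)` -/
noncomputable def Good (m : Fin (k + 1) → ℕ) (i j : Fin (k + 1)) (t X A B : ℕ) : Finset ℕ :=
  (Ioc A B).filter (fun n : ℕ => (n + m i).Prime ∧ Almost 2 ((X : ℝ) ^ (1 / 9 : ℝ)) (n + m j) ∧
    ∀ l, Almost t ((X : ℝ) ^ (1 / (t : ℝ))) (n + m l))

/-- the terms `a, a + b, ..., a + (s - 1) b` of the progression `z = (a, b)` -/
def terms (s : ℕ) (z : ℕ × ℕ) : Finset ℕ := (range s).image (fun i => z.1 + i * z.2)

theorem factor_eq (m : Fin (k + 1) → ℕ) (q : ℕ) : factor m q = Pool.Agent.H386R2.HL.localFactor m q := by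
  unfold factor Pool.Agent.H386R2.HL.localFactor w Pool.Agent.H386R2.HL.nu
  rw [inv_pow, div_eq_mul_inv, mul_comm]

theorem const_eq (m : Fin (k + 1) → ℕ) : const m = Pool.Agent.H386R2.HL.singularSeries m := by
  unfold const Pool.Agent.H386R2.HL.singularSeries
  simp only [factor_eq]

theorem almost_iff (r : ℕ) (y : ℝ) (v : ℕ) : Pool.Agent.X32.Uni.Almost r y (v : ℤ) ↔ Almost r y v := by
  unfold Pool.Agent.X32.Uni.Almost Almost
  rw [Nat.abs_cast, Int.natAbs_natCast]
  constructor
  · rintro ⟨h1, h2, h3⟩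
    exact ⟨by exact_mod_cast h1, h2, fun q hq hd => h3 q hq (by exact_mod_cast hd)⟩
  · rintro ⟨h1, h2, h3⟩
    exact ⟨by exact_mod_cast h1, h2, fun q hq hd => h3 q hq (by exact_mod_cast hd)⟩

theorem good_eq (m : Fin (k + 1) → ℕ) (i j : Fin (k + 1)) (t X A B : ℕ) :
    Pool.Agent.X32.Uni.GoodL (fun _ => (1 : ℤ)) (fun l => (m l : ℤ)) i j t X A B = Good m i j t X A B := by
  have e : ∀ (n : ℕ) (l : Fin (k + 1)), (1 : ℤ) * (n : ℤ) + (m l : ℤ) = ((n + m l : ℕ) : ℤ) := fun n l => by
    push_cast
    ring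
  unfold Pool.Agent.X32.Uni.GoodL Good
  ext n
  simp only [mem_filter, e, almost_iff, Int.natAbs_natCast]

theorem adm {m : Fin (k + 1) → ℕ} (h : Admissible m) :
    Pool.Agent.X32.Uni.AdmL (fun _ => (1 : ℤ)) (fun l => (m l : ℤ)) := by
  intro q hq
  obtain ⟨v, hv, hvm⟩ : ∃ v ∈ range q, v ∉ univ.image (fun l => m l % q) := by
    by_contra hcon
    push Not at hcon
    have h1 : (range q).card ≤ w m q := card_le_card hcon
    rw [card_range] at h1
    have h2 := h q hq
    omega
  refine ⟨-(v : ℤ), fun l hd => hvm ?_⟩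
  rw [mem_image]
  refine ⟨l, mem_univ _, ?_⟩
  have h3 : (q : ℤ) ∣ (m l : ℤ) - v := by
    have e : (1 : ℤ) * (-(v : ℤ)) + (m l : ℤ) = (m l : ℤ) - v := by ring
    rwa [e] at hd
  have h4 : (v : ℤ) ≡ (m l : ℤ) [ZMOD q] := (Int.modEq_iff_dvd).2 h3
  have h5 : v ≡ m l [MOD q] := (Int.natCast_modEq_iff).1 h4
  have h6 : v % q = m l % q := h5
  rw [Nat.mod_eq_of_lt (mem_range.1 hv)] at h6
  exact h6.symm

theorem result (k : ℕ) :
    (∀ m : Fin (k + 1) → ℕ, Function.Injective m →
      HasProd (fun q : Nat.Primes => factor m q) (const m) ∧ (Admissible m → 0 < const m)) ∧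
    ∃ t : ℕ, 1 ≤ t ∧ ∃ κ : ℝ, 0 < κ ∧ ∀ (K s r : ℕ) (θ δ : ℝ), 1 ≤ s → 0 < θ → 0 < δ →
      ∃ c X₀ : ℕ, ∀ X : ℕ, X₀ ≤ X → ∀ m : Fin (k + 1) → ℕ, Function.Injective m → Admissible m →
        (∀ l, m l ≤ K * X) → ∀ i j : Fin (k + 1), i ≠ j → ∀ A B : ℕ, B ≤ X → θ * X ≤ (B : ℝ) - A →
          κ * (const m * ((B : ℝ) - A) / Real.log X ^ (k + 1)) ≤ ((Good m i j t X A B).card : ℝ) ∧
          ∀ χ : ℕ → Fin r, ∃ P : Finset (ℕ × ℕ),
            (∀ z ∈ P, 1 ≤ z.2 ∧ (z.2 : ℝ) ≤ Real.log X ^ c ∧
              ∀ l < s, z.1 + l * z.2 ∈ Good m i j t X A B ∧ χ (z.1 + l * z.2) = χ z.1) ∧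
            (P : Set (ℕ × ℕ)).PairwiseDisjoint (terms s) ∧
            (((Good m i j t X A B \ P.biUnion (terms s)).card : ℕ) : ℝ) ≤ δ * ((Good m i j t X A B).card : ℝ) := by
  classical
  constructor
  · intro m hm
    constructor
    · have h := (Pool.Agent.H386R2.HL.multipliable_localFactor m hm).hasProd
      rw [const_eq]
      unfold Pool.Agent.H386R2.HL.singularSeries
      simp only [factor_eq]
      exact h
    · intro hadm
      rw [const_eq]
      exact Pool.Agent.H386R2.HL.singularSeries_pos hm hadm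
  · obtain ⟨t, ht, κ, hκ, H⟩ := Pool.Agent.X32.Uni.linP (k + 1) 1 (by omega)
    obtain ⟨c₁, hc₁, hV⟩ := Pool.Agent.K1H92.UC.VL_ge (k + 1)
    refine ⟨t, ht, κ * c₁, by positivity, fun K s r θ δ hs hθ hδ => ?_⟩
    obtain ⟨c, X₀, h⟩ := H (K + 1) s r θ (δ * κ) hs hθ (by positivity)
    refine ⟨c, max X₀ (K + 4), fun X hX m hinj hadm hm i j hij A B hB hAB => ?_⟩
    have hX1 : X₀ ≤ X := (le_max_left _ _).trans hX
    have hX2 : K + 4 ≤ X := (le_max_right _ _).trans hX
    have hX0 : (0 : ℝ) < X := by exact_mod_cast (by omega : 0 < X)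
    have hlog : 0 < Real.log X := Real.log_pos (by exact_mod_cast (by omega : 1 < X))
    have S : Pool.Agent.X32.Uni.SysL (k + 1) 1 (K + 1) X (fun _ => (1 : ℤ)) (fun l => (m l : ℤ)) i j :=
      { a0 := fun _ => one_ne_zero
        aE := by simp
        aE' := by simp
        aK := fun _ => by
          rw [abs_one]
          push_cast
          omega
        bK := fun l => by
          rw [Nat.abs_cast]
          have h1 : m l ≤ (K + 1) * X := (hm l).trans (Nat.mul_le_mul_right X (Nat.le_succ K))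
          exact_mod_cast h1
        adm := adm hadm
        ne := by
          intro he
          have h1 : (m j : ℤ) = m i := (Prod.ext_iff.1 he).2
          exact hij (hinj (by exact_mod_cast h1)).symm
        ne' := by
          intro he
          have h1 : (1 : ℤ) = -1 := (Prod.ext_iff.1 he).1
          omega }
    obtain ⟨_, h2⟩ := h X hX1 _ _ i j S
    obtain ⟨h3, h4⟩ := h2 A B hB hAB
    have hVL := hV K X (by omega) (by omega) m hinj hm
    have hBA : 0 < (B : ℝ) - A := lt_of_lt_of_le (by positivity) hAB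
    rw [good_eq] at h3
    constructor
    · refine le_trans ?_ h3
      rw [← const_eq] at hVL
      have h5 : κ * ((B : ℝ) - A) * (c₁ * const m / Real.log X ^ (k + 1)) ≤
          κ * ((B : ℝ) - A) * Pool.Agent.X32.Uni.VL (fun _ => (1 : ℤ)) (fun l => (m l : ℤ)) X :=
        mul_le_mul_of_nonneg_left hVL (by positivity)
      refine le_trans (le_of_eq ?_) h5
      ring
    · intro χ
      obtain ⟨P, p1, p2, p3⟩ := h4 χ
      rw [good_eq] at p3
      refine ⟨P, ?_, p2, ?_⟩
      · intro z hz
        obtain ⟨z1, z2, z3⟩ := p1 z hz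
        refine ⟨z1, z2, fun l hl => ?_⟩
        have h6 := z3 l hl
        rw [good_eq] at h6
        exact h6
      · refine le_trans p3 ?_
        have h7 : δ * κ * ((B : ℝ) - A) * Pool.Agent.X32.Uni.VL (fun _ => (1 : ℤ)) (fun l => (m l : ℤ)) X =
            δ * (κ * ((B : ℝ) - A) * Pool.Agent.X32.Uni.VL (fun _ => (1 : ℤ)) (fun l => (m l : ℤ)) X) := by ring
        rw [h7]
        exact mul_le_mul_of_nonneg_left h3 hδ.le

end Pool.Agent.Results.MP_68a45e_nt.UniformChen
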